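import Pool.Agent.Lib.MP_50b5c6_lc.NpQ
import Pool.Agent.Lib.MP_50b5c6_lc.NpChar
import Pool.Agent.Lib.MP_50b5c6_lc.NpTrack
import Pool.Agent.Lib.MP_50b5c6_lc.NpSemi
import Pool.Agent.Lib.MP_50b5c6_lc.NpPix
import Pool.Agent.Lib.MP_50b5c6_lc.NpTop
import Pool.Agent.Lib.MP_50b5c6_lc.NpSub
import Pool.Agent.Lib.MP_50b5c6_lc.NpVer

namespace Pool.Agent.Results.MP_50b5c6_lc.InNP

open Pool.Agent.Lib.MP_50b5c6_lc N68a2faeb

theorem result : lang True ∈ NP :=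
  Np.ver (Np.char Np.minor (Np.top (Np.touch Np.minor Np.grid)) Np.track Np.sub Np.semi)

end Pool.Agent.Results.MP_50b5c6_lc.InNP
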