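import Pool.Agent.Lib.MP_50b5c6_lc.Red

namespace Pool.Agent.Results.MP_50b5c6_lc.StrongHard

open Pool.Agent.Lib.MP_50b5c6_lc N68a2faeb N793a5b8e

theorem result : ∀ L ∈ NP, ManyOneReducible L (lang False) :=
  hard False

end Pool.Agent.Results.MP_50b5c6_lc.StrongHard
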